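import Pool.Agent.N557.CV.Stm

/-! # JEN: Jensen's inequality for a series -/

set_option autoImplicit false

namespace Pool.Agent.N415.CV

open Pool.Agent.N557.CV
open scoped ENNReal

theorem t_jen : S_JEN := by
  intro p hp w y hw
  have hp0 : 0 < p := by linarith
  have hpq : p.HolderConjugate (Real.conjExponent p) := Real.HolderConjugate.conjExponent hp
  set q : ℝ := Real.conjExponent p with hq
  have hq0 : 0 < q := hpq.symm.pos
  have hsum : 1 / p + 1 / q = 1 := by
    have := hpq.inv_add_inv_eq_one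
    rwa [← one_div, ← one_div] at this
  have h1 : ∀ s : Finset ℕ, ∑ k ∈ s, w k * y k ≤ (∑' k, w k * y k ^ p) ^ (1 / p) := by
    intro s
    have hh := ENNReal.inner_le_Lp_mul_Lq s (fun k => w k ^ (1 / p) * y k) (fun k => w k ^ (1 / q)) hpq
    have e1 : ∀ k, w k ^ (1 / p) * y k * w k ^ (1 / q) = w k * y k := by
      intro k
      have : w k ^ (1 / p) * w k ^ (1 / q) = w k := by
        rw [← ENNReal.rpow_add_of_nonneg _ _ (by positivity) (by positivity), hsum, ENNReal.rpow_one]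
      calc w k ^ (1 / p) * y k * w k ^ (1 / q) = (w k ^ (1 / p) * w k ^ (1 / q)) * y k := by ring
        _ = w k * y k := by rw [this]
    have e2 : ∀ k, (w k ^ (1 / p) * y k) ^ p = w k * y k ^ p := by
      intro k
      rw [ENNReal.mul_rpow_of_nonneg _ _ hp0.le, ← ENNReal.rpow_mul, one_div, inv_mul_cancel₀ hp0.ne',
        ENNReal.rpow_one]
    have e3 : ∀ k, (w k ^ (1 / q)) ^ q = w k := by
      intro k
      rw [← ENNReal.rpow_mul, one_div, inv_mul_cancel₀ hq0.ne', ENNReal.rpow_one]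
    simp only [e1, e2, e3] at hh
    refine hh.trans ?_
    have a1 : (∑ k ∈ s, w k * y k ^ p) ^ (1 / p) ≤ (∑' k, w k * y k ^ p) ^ (1 / p) :=
      ENNReal.rpow_le_rpow (ENNReal.sum_le_tsum s) (by positivity)
    have a2 : (∑ k ∈ s, w k) ^ (1 / q) ≤ 1 := by
      refine ENNReal.rpow_le_one ((ENNReal.sum_le_tsum s).trans hw) (by positivity)
    calc _ ≤ (∑' k, w k * y k ^ p) ^ (1 / p) * 1 := mul_le_mul' a1 a2
      _ = _ := mul_one _
  have h2 : ∑' k, w k * y k ≤ (∑' k, w k * y k ^ p) ^ (1 / p) := by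
    rw [ENNReal.tsum_eq_iSup_sum]
    exact iSup_le h1
  calc (∑' k, w k * y k) ^ p ≤ ((∑' k, w k * y k ^ p) ^ (1 / p)) ^ p := ENNReal.rpow_le_rpow h2 hp0.le
    _ = ∑' k, w k * y k ^ p := by
      rw [← ENNReal.rpow_mul, one_div, inv_mul_cancel₀ hp0.ne', ENNReal.rpow_one]

end Pool.Agent.N415.CV
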